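import Mathlib
import Pool.Agent.W218.SI.Lin6

/-!
The uniform prime `k`-tuplets conjecture for every choice of the leading coefficients `a_1, ..., a_k`
with `φ(a_i) ≥ c a_i` (so for instance for all large prime `a_i`), and a positive proportion of the
constant coefficients `b_i`; the arguments `n` run over an arbitrary dense subset of an arbitrary
interval of length at least `c ∏ log a_i`, not too far from the origin. For such tuples `n` may be
chosen as small as a power of `log a_1 ⋯ log a_k`.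
-/

set_option autoImplicit false

namespace Pool.Agent.Results.MP_746f10_nt.EveryLeadingCoefficients

open Finset

/-- the forms `a_i x + b_i` are admissible, in the sense of the problem file -/
def Admissible {k : ℕ} (a b : Fin k → ℕ) : Prop :=
  (∀ i, 1 ≤ b i ∧ b i < a i) ∧
    ∀ p : ℕ, p.Prime → ∃ n : ℤ, ∀ i, ¬ ((p : ℤ) ∣ (a i : ℤ) * n + b i)

/-- the number of `n ∈ T` at which all the forms `a_i x + b_i` take prime values -/
noncomputable def P {k : ℕ} (T : Finset ℕ) (a b : Fin k → ℕ) : ℕ :=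
  (T.filter (fun n => ∀ i, (a i * n + b i).Prime)).card

lemma adm {k : ℕ} {a b : Fin k → ℕ} {A₀ : ℕ} (hk : k < A₀) (h4 : 4 ≤ A₀) (ha : ∀ i, A₀ ≤ a i)
    {n : ℕ} (hn : 1 ≤ n) (h : ∀ i, (a i * n + b i).Prime) (hb : ∀ i, 1 ≤ b i ∧ b i ≤ a i) :
    Admissible a b := by
  classical
  constructor
  · intro i
    refine ⟨(hb i).1, lt_of_le_of_ne (hb i).2 ?_⟩
    intro hbi
    have h1 := h i
    rw [hbi] at h1
    have e : a i * n + a i = a i * (n + 1) := by ring
    rw [e] at h1
    exact Nat.not_prime_mul (by have := ha i; omega) (by omega) h1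
  · intro p hp
    by_cases hall : ∀ i, ¬ ((p : ℤ) ∣ (a i : ℤ) * n + b i)
    · exact ⟨n, hall⟩
    push Not at hall
    obtain ⟨j, hj⟩ := hall
    have val : ∀ i, ((p : ℤ) ∣ (a i : ℤ) * n + b i) → p = a i * n + b i := by
      intro i hi
      have h1 : p ∣ a i * n + b i := by exact_mod_cast hi
      exact (Nat.prime_dvd_prime_iff_eq hp (h i)).1 h1
    have hpk : k < p := by
      have h1 := val j hj
      have h2 := ha j
      nlinarith
    set B : Fin k → Finset ℕ := fun i =>
      (range p).filter (fun m => (p : ℤ) ∣ (a i : ℤ) * m + b i) with hB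
    have hcard : ∀ i, (B i).card ≤ 1 := by
      intro i
      rw [Finset.card_le_one]
      intro m₁ h₁ m₂ h₂
      rw [hB] at h₁ h₂
      simp only [mem_filter, mem_range] at h₁ h₂
      have hpa : ¬ ((p : ℤ) ∣ (a i : ℤ)) := by
        intro hd
        have hd2 : (p : ℤ) ∣ (b i : ℤ) := by
          have := dvd_sub h₁.2 (Dvd.dvd.mul_right hd (m₁ : ℤ))
          simpa using this
        have h3 := val i (dvd_add (Dvd.dvd.mul_right hd _) hd2)
        have h5 : p ≤ a i := Nat.le_of_dvd (by have := ha i; omega) (by exact_mod_cast hd)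
        have h6 := (hb i).1
        nlinarith [ha i]
      have h3 : (p : ℤ) ∣ (a i : ℤ) * ((m₁ : ℤ) - m₂) := by
        have := dvd_sub h₁.2 h₂.2
        have e : (a i : ℤ) * m₁ + b i - ((a i : ℤ) * m₂ + b i) = (a i : ℤ) * ((m₁ : ℤ) - m₂) := by
          ring
        rwa [e] at this
      have h4' : (p : ℤ) ∣ ((m₁ : ℤ) - m₂) :=
        ((Nat.prime_iff_prime_int.1 hp).dvd_or_dvd h3).resolve_left hpa
      have h5 : ((m₁ : ℤ) - m₂) = 0 := by
        apply Int.eq_zero_of_abs_lt_dvd h4'
        rw [abs_lt]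
        omega
      omega
    have hU : ((univ : Finset (Fin k)).biUnion B).card < (range p).card := by
      calc ((univ : Finset (Fin k)).biUnion B).card ≤ ∑ i : Fin k, (B i).card := card_biUnion_le
        _ ≤ ∑ i : Fin k, 1 := sum_le_sum fun i _ => hcard i
        _ = k := by simp
        _ < p := hpk
        _ = _ := (card_range p).symm
    obtain ⟨m, hm, hmU⟩ := Finset.exists_mem_notMem_of_card_lt_card hU
    refine ⟨m, fun i hi => hmU ?_⟩
    rw [mem_biUnion]
    exact ⟨i, mem_univ _, by rw [hB]; exact mem_filter.2 ⟨hm, hi⟩⟩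

lemma coin1 {k : ℕ} (a : Fin k → ℕ) (i j : Fin k) (hij : i ≠ j) {A₀ : ℕ} (ha : A₀ ≤ a j) :
    (((Fintype.piFinset (fun i : Fin k => Ioc 0 (a i))).filter
      (fun b => b i = b j)).card : ℝ) * A₀ ≤ ∏ i, (a i : ℝ) := by
  classical
  have h1 : ((Fintype.piFinset (fun i : Fin k => Ioc 0 (a i))).filter
      (fun b => b i = b j)).card ≤
      (Fintype.piFinset (Function.update (fun i : Fin k => Ioc 0 (a i)) j {1})).card := by
    apply card_le_card_of_injOn (fun b => Function.update b j 1)
    · intro b hb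
      rw [mem_coe, mem_filter, Fintype.mem_piFinset] at hb
      rw [mem_coe, Fintype.mem_piFinset]
      intro l
      by_cases hl : l = j
      · subst hl; simp
      · simp only
        rw [Function.update_of_ne hl, Function.update_of_ne hl]
        exact hb.1 l
    · intro b hb b' hb' h
      rw [mem_coe, mem_filter] at hb hb'
      simp only at h
      funext l
      have key : ∀ l, l ≠ j → b l = b' l := by
        intro l hl
        have := congrFun h l
        rwa [Function.update_of_ne hl, Function.update_of_ne hl] at this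
      by_cases hl : l = j
      · subst hl
        rw [← hb.2, ← hb'.2]
        exact key i hij
      · exact key l hl
  have h2 : (Fintype.piFinset (Function.update (fun i : Fin k => Ioc 0 (a i)) j {1})).card =
      ∏ l ∈ univ.erase j, a l := by
    rw [Fintype.card_piFinset, ← mul_prod_erase univ _ (mem_univ j)]
    rw [Function.update_self, card_singleton, one_mul]
    apply prod_congr rfl
    intro l hl
    rw [Function.update_of_ne (ne_of_mem_erase hl), Nat.card_Ioc, Nat.sub_zero]
  have h3 : ∏ l, (a l : ℝ) = a j * ∏ l ∈ univ.erase j, (a l : ℝ) :=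
    (mul_prod_erase univ (fun l => (a l : ℝ)) (mem_univ j)).symm
  rw [h3, mul_comm]
  have h4 : (((Fintype.piFinset (fun i : Fin k => Ioc 0 (a i))).filter
      (fun b => b i = b j)).card : ℝ) ≤ ∏ l ∈ univ.erase j, (a l : ℝ) := by
    rw [h2] at h1
    exact_mod_cast h1
  apply mul_le_mul (by exact_mod_cast ha) h4 (Nat.cast_nonneg _) (Nat.cast_nonneg _)

lemma coin {k : ℕ} (a : Fin k → ℕ) {A₀ : ℕ} (hA : 0 < A₀) (ha : ∀ i, A₀ ≤ a i) :
    (((Fintype.piFinset (fun i : Fin k => Ioc 0 (a i))).filter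
      (fun b => ¬ Function.Injective (fun i => (a i, b i)))).card : ℝ) ≤
      (k : ℝ) ^ 2 * ((∏ i, (a i : ℝ)) / A₀) := by
  classical
  have hA' : (0 : ℝ) < A₀ := by exact_mod_cast hA
  have hsub : (Fintype.piFinset (fun i : Fin k => Ioc 0 (a i))).filter
      (fun b => ¬ Function.Injective (fun i => (a i, b i))) ⊆
      ((univ : Finset (Fin k × Fin k)).filter (fun ij => ij.1 ≠ ij.2)).biUnion
        (fun ij => (Fintype.piFinset (fun i : Fin k => Ioc 0 (a i))).filter
          (fun b => b ij.1 = b ij.2)) := by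
    intro b hb
    rw [mem_filter] at hb
    obtain ⟨hb1, hb2⟩ := hb
    unfold Function.Injective at hb2
    push Not at hb2
    obtain ⟨i, j, h, hij⟩ := hb2
    rw [mem_biUnion]
    exact ⟨(i, j), mem_filter.2 ⟨mem_univ _, hij⟩, mem_filter.2 ⟨hb1, (Prod.mk.inj h).2⟩⟩
  calc _ ≤ (((((univ : Finset (Fin k × Fin k)).filter (fun ij => ij.1 ≠ ij.2)).biUnion
        (fun ij => (Fintype.piFinset (fun i : Fin k => Ioc 0 (a i))).filter
          (fun b => b ij.1 = b ij.2))).card : ℕ) : ℝ) := by
        exact_mod_cast card_le_card hsub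
    _ ≤ ∑ ij ∈ (univ : Finset (Fin k × Fin k)).filter (fun ij => ij.1 ≠ ij.2),
        (((Fintype.piFinset (fun i : Fin k => Ioc 0 (a i))).filter
          (fun b => b ij.1 = b ij.2)).card : ℝ) := by
        exact_mod_cast card_biUnion_le
    _ ≤ ∑ ij ∈ (univ : Finset (Fin k × Fin k)).filter (fun ij => ij.1 ≠ ij.2),
        ((∏ i, (a i : ℝ)) / A₀) := by
        apply sum_le_sum
        intro ij hij
        rw [le_div_iff₀ hA']
        exact coin1 a ij.1 ij.2 (mem_filter.1 hij).2 (ha ij.2)
    _ ≤ _ := by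
        rw [sum_const, nsmul_eq_mul]
        apply mul_le_mul_of_nonneg_right _ (by positivity)
        have h1 : ((univ : Finset (Fin k × Fin k)).filter (fun ij => ij.1 ≠ ij.2)).card ≤
            k * k := by
          refine (card_filter_le _ _).trans ?_
          simp
        calc ((((univ : Finset (Fin k × Fin k)).filter (fun ij => ij.1 ≠ ij.2)).card : ℕ) : ℝ) ≤
            ((k * k : ℕ) : ℝ) := by exact_mod_cast h1
          _ = _ := by push_cast; ring

open Classical in
/-- **Uniform prime `k`-tuplets for all leading coefficients.** There is `δ` in `(0, 1)` such that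
for all `k ≥ 1` and `c, ρ > 0` there are `κ > 0` and `A₀` with the following property. Let
`a_1, ..., a_k ≥ A₀` be any integers with `φ(a_i) ≥ c a_i`, let `(y, y + x]` be any interval with
`x ≥ c log a_1 ⋯ log a_k` and `y + x ≤ a_i^δ` for all `i`, and let `T` be any set of at least `ρ x`
integers of this interval. Then at least `κ a_1 ⋯ a_k` of the `(b_1, ..., b_k)`, `1 ≤ b_i ≤ a_i`,
give an admissible set of `k` distinct forms `a_i x + b_i` for which the number `P` of `n ∈ T` with
all `a_i n + b_i` prime satisfies `κ |T| / ∏ log a_i ≤ P ≤ κ⁻¹ |T| / ∏ log a_i`. -/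
theorem result : ∃ δ : ℝ, 0 < δ ∧ δ < 1 ∧ ∀ k : ℕ, 1 ≤ k → ∀ c ρ : ℝ, 0 < c → 0 < ρ →
    ∃ κ : ℝ, 0 < κ ∧ ∃ A₀ : ℕ, ∀ a : Fin k → ℕ, (∀ i, A₀ ≤ a i) →
    (∀ i, c * a i ≤ Nat.totient (a i)) → ∀ y x : ℕ, c * ∏ i, Real.log (a i) ≤ x →
    (∀ i, ((y + x : ℕ) : ℝ) ≤ (a i : ℝ) ^ δ) → ∀ T ⊆ Ioc y (y + x), ρ * x ≤ (T.card : ℝ) →
    κ * ∏ i, (a i : ℝ) ≤ ((((Fintype.piFinset (fun i : Fin k => Icc 1 (a i))).filter (fun b =>
      Admissible a b ∧ Function.Injective (fun i => (a i, b i)) ∧
      κ * (T.card / ∏ i, Real.log (a i)) ≤ P T a b ∧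
      κ * P T a b ≤ T.card / ∏ i, Real.log (a i))).card : ℕ) : ℝ) := by
  classical
  obtain ⟨δ, hδ, hδ1, hmain⟩ := Pool.Agent.W218.SI.lin6
  refine ⟨δ, hδ, hδ1, fun k hk c ρ hc hρ => ?_⟩
  obtain ⟨κ, hκ, A₀, hA₀, hM⟩ := hmain k hk c ρ hc hρ
  set A₁ : ℕ := max A₀ (max (k + 1) ⌈2 * (k : ℝ) ^ 2 / κ⌉₊) with hA₁
  refine ⟨κ / 2, by positivity, A₁, ?_⟩
  intro a ha hφ y x hcx hxa T hT hTc
  have haA₀ : ∀ i, A₀ ≤ a i := fun i => (le_max_left _ _).trans (ha i)
  have hkA : k < A₁ := by
    have : k + 1 ≤ A₁ := (le_max_left _ _).trans (le_max_right _ _)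
    omega
  have h4 : 4 ≤ A₁ := hA₀.trans (le_max_left _ _)
  have hκA : 2 * (k : ℝ) ^ 2 / κ ≤ A₁ :=
    (Nat.le_ceil _).trans (Nat.cast_le.2 ((le_max_right _ _).trans (le_max_right _ _)))
  have hA1pos : (0 : ℝ) < A₁ := by exact_mod_cast (by omega : 0 < A₁)
  have hlog : ∀ i, 0 < Real.log (a i) := fun i => by
    apply Real.log_pos
    have := h4.trans (ha i)
    exact_mod_cast (by omega : 1 < a i)
  have hΛ : 0 < ∏ i, Real.log (a i) := prod_pos fun i _ => hlog i
  have hx0 : (0 : ℝ) < x := lt_of_lt_of_le (by positivity) hcx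
  have hT0 : (0 : ℝ) < T.card := lt_of_lt_of_le (by positivity) hTc
  have h1 := hM a haA₀ hφ y x hcx hxa T hT hTc
  have h2 := coin a (by omega : 0 < A₁) ha
  have hpa : 0 < ∏ i, (a i : ℝ) := prod_pos fun i _ => by
    have := h4.trans (ha i)
    exact_mod_cast (by omega : 0 < a i)
  have eP : ∀ b : Fin k → ℕ, Pool.Agent.W218.PF.primeS (Pool.Agent.W218.SI.lead a) b T =
      P T a b := by
    intro b
    unfold Pool.Agent.W218.PF.primeS P Pool.Agent.W218.SI.lead
    apply congrArg Finset.card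
    apply filter_congr
    intro n _
    apply forall_congr'
    intro i
    have e : ((a i : ℤ) * n + (b i : ℤ)).toNat = a i * n + b i := by
      have : ((a i : ℤ) * n + (b i : ℤ)) = ((a i * n + b i : ℕ) : ℤ) := by push_cast; ring
      rw [this, Int.toNat_natCast]
    rw [e]
  have hsub : (Fintype.piFinset (fun i : Fin k => Ioc 0 (a i))).filter (fun b =>
      κ * T.card / (∏ i, Real.log (a i)) ≤
        Pool.Agent.W218.PF.primeS (Pool.Agent.W218.SI.lead a) b T ∧
      κ * Pool.Agent.W218.PF.primeS (Pool.Agent.W218.SI.lead a) b T ≤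
        T.card / (∏ i, Real.log (a i))) ⊆
      ((Fintype.piFinset (fun i : Fin k => Icc 1 (a i))).filter (fun b =>
      Admissible a b ∧ Function.Injective (fun i => (a i, b i)) ∧
      κ / 2 * (T.card / ∏ i, Real.log (a i)) ≤ P T a b ∧
      κ / 2 * P T a b ≤ T.card / ∏ i, Real.log (a i))) ∪
      (Fintype.piFinset (fun i : Fin k => Ioc 0 (a i))).filter
      (fun b => ¬ Function.Injective (fun i => (a i, b i))) := by
    intro b hb
    rw [mem_filter, Fintype.mem_piFinset] at hb
    obtain ⟨hb1, hb2, hb3⟩ := hb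
    rw [eP] at hb2 hb3
    rw [mem_union, mem_filter, mem_filter, Fintype.mem_piFinset, Fintype.mem_piFinset]
    by_cases hinj : Function.Injective (fun i => (a i, b i))
    · left
      have hb' : ∀ i, 1 ≤ b i ∧ b i ≤ a i := fun i => by
        have := mem_Ioc.1 (hb1 i)
        omega
      refine ⟨fun i => mem_Icc.2 (hb' i), ?_, hinj, ?_, ?_⟩
      · have hP : (0 : ℝ) < P T a b := lt_of_lt_of_le (by positivity) hb2
        have hP' : 0 < P T a b := by exact_mod_cast hP
        unfold P at hP'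
        obtain ⟨n, hn⟩ := card_pos.1 hP'
        rw [mem_filter] at hn
        have hn1 := mem_Ioc.1 (hT hn.1)
        exact adm hkA h4 ha (by omega) hn.2 hb'
      · refine le_trans ?_ hb2
        rw [mul_div_assoc]
        apply mul_le_mul_of_nonneg_right (by linarith) (by positivity)
      · refine le_trans ?_ hb3
        apply mul_le_mul_of_nonneg_right (by linarith) (Nat.cast_nonneg _)
    · right
      exact ⟨hb1, hinj⟩
  have h3 := (card_le_card hsub).trans (card_union_le _ _)
  have h5 : (k : ℝ) ^ 2 * ((∏ i, (a i : ℝ)) / A₁) ≤ κ / 2 * ∏ i, (a i : ℝ) := by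
    rw [div_le_iff₀ hκ] at hκA
    rw [← mul_div_assoc, div_le_iff₀ hA1pos]
    nlinarith
  have h3' := (Nat.cast_le (α := ℝ)).2 h3
  push_cast at h3'
  linarith

end Pool.Agent.Results.MP_746f10_nt.EveryLeadingCoefficients
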